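import Pool.Agent.Lib.MP_4318ff_ag.Spec.W1
import Pool.Agent.Lib.MP_4318ff_ag.E.Et

/-!
# MP_4318ff_ag, `W/EtF`: the additive theorem for etale coverings modulo `F`-rational derivations
-/

set_option autoImplicit false

namespace Pool.Agent.Lib.MP_4318ff_ag

open scoped LinearAlgebra.Projectivization

/-- Roots of unity lie in an algebraically closed subfield. -/
private theorem etF_one {k : Type} [Field k] [IsAlgClosed k] {L : Type} [Field L] [Algebra k L]
    {n : ℕ} (hn : 0 < n) (η : L) (h : η ^ n = 1) : ∃ ζ : k, algebraMap k L ζ = η := by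
  have hint : IsIntegral k η := by
    refine ⟨Polynomial.X ^ n - Polynomial.C 1, Polynomial.monic_X_pow_sub_C 1 hn.ne', ?_⟩
    simp [h]
  have h1 := IsAlgClosed.degree_eq_one_of_irreducible k (minpoly.irreducible hint)
  exact minpoly.mem_range_of_degree_eq_one k η h1

private theorem etF_root {k : Type} [Field k] [IsAlgClosed k] {K L : Type} [Field K] [Field L]
    [Algebra k K] [Algebra k L] [Algebra K L] [IsScalarTower k K L] {n : ℕ} (hn : 0 < n)
    (z : L) (u : K) (h : z ^ n = algebraMap K L (u ^ n)) :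
    ∃ v : K, algebraMap K L v = z := by
  by_cases hu : u = 0
  · refine ⟨0, ?_⟩
    rw [map_zero]
    rw [hu, zero_pow hn.ne', map_zero] at h
    exact (pow_eq_zero_iff hn.ne').1 h |>.symm
  · have hu' : algebraMap K L u ≠ 0 := by
      rwa [Ne, map_eq_zero]
    obtain ⟨ζ, hζ⟩ := etF_one (k := k) hn (z / algebraMap K L u) (by
      rw [div_pow, h, map_pow, div_self (pow_ne_zero n hu')])
    refine ⟨algebraMap k K ζ * u, ?_⟩
    rw [map_mul, ← IsScalarTower.algebraMap_apply, hζ, div_mul_cancel₀ _ hu']

/-- The Kummer field of `L` is contained in `K`. -/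
private theorem etF_range {k : Type} [Field k] [IsAlgClosed k] {r : ℕ} (C : Config k r) (n : ℕ)
    (hn : 0 < n) (K L : Type) [Field K] [Field L] [Algebra (F k) K] [Algebra (F k) L]
    [Algebra K L] [IsScalarTower (F k) K L] [Algebra k K] [Algebra k L] [IsScalarTower k K L]
    (hR : Roots K C n) : ∀ x ∈ Kummer L C n, ∃ y : K, algebraMap K L y = x := by
  have h : Kummer L C n ≤ (algebraMap K L).fieldRange := by
    unfold Kummer
    rw [Subfield.closure_le]
    rintro x (⟨f, rfl⟩ | ⟨i, j, hij⟩)
    · rw [IsScalarTower.algebraMap_apply (F k) K L]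
      exact ⟨_, rfl⟩
    · obtain ⟨u, hu⟩ := hR i j
      rw [IsScalarTower.algebraMap_apply (F k) K L, ← hu] at hij
      obtain ⟨v, hv⟩ := etF_root (k := k) hn x u hij
      exact ⟨v, hv⟩
  intro x hx
  exact h hx

/-- An `F`-rational derivation is invariant. -/
private theorem etF_inv (hED : ExtDerStmt) {k : Type} [Field k] [CharZero k] (L : Type) [Field L]
    [Algebra (F k) L] [Algebra k L] [IsScalarTower k (F k) L] [FiniteDimensional (F k) L]
    (c : Derivation k L L) (hc : FRat L c) (g : L ≃ₐ[F k] L) : conjD g c = c := by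
  obtain ⟨-, h2, -, -⟩ := hED k (F k) L
  refine h2 _ _ fun f => ?_
  change g (c (g.symm (algebraMap (F k) L f))) = c (algebraMap (F k) L f)
  rw [AlgEquiv.commutes]
  obtain ⟨f', hf'⟩ := hc f
  rw [hf', AlgEquiv.commutes]

/-- The main argument for a finite Galois extension `L` of `F` containing `K`. -/
private theorem etF_core (hED : ExtDerStmt) (hOv : OverlapStmt) (hES : EtStepStmt) (hAv : AvgStmt)
    (hRM : RegModStmt)
    (k : Type) [Field k] [CharZero k] [IsAlgClosed k] (r n : ℕ) (C : Config k r) (hMT : MTLFor C n)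
    (K : Type) [Field K] [Algebra (F k) K] [Algebra k K] [IsScalarTower k (F k) K]
    (L : Type) [Field L] [Algebra (F k) L] [Algebra K L] [IsScalarTower (F k) K L] [Algebra k L]
    [IsScalarTower k (F k) L] [FiniteDimensional (F k) L] [IsGalois (F k) L]
    (hn : 0 < n) (hK : IsEtaleCover C n K)
    (D : Chart C → Chart C → Derivation k K K)
    (hA : ∀ u v, ∀ x ∈ u.A K ⊔ v.A K, D u v x ∈ u.A K ⊔ v.A K)
    (hD : ∀ u v w, FRat K (D u v + D v w - D u w)) :
    ∃ E : Chart C → Derivation k K K, (∀ u, ∀ x ∈ u.A K, E u x ∈ u.A K) ∧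
      ∀ u v, FRat K (D u v - (E v - E u)) := by
  have := hK.finite
  have hkKL : IsScalarTower k K L := by
    refine IsScalarTower.of_algebraMap_eq fun x => ?_
    rw [IsScalarTower.algebraMap_apply k (F k) L, IsScalarTower.algebraMap_apply k (F k) K,
      IsScalarTower.algebraMap_apply (F k) K L]
  obtain ⟨h1, h2, h3, T, T1, T2, T3⟩ := hED k K L
  obtain ⟨hF1, -, -, -⟩ := hED k (F k) K
  obtain ⟨-, hF2, -, -⟩ := hED k (F k) L
  choose ext hext using h1
  obtain ⟨av1, av2, av3, av4, av5, av6, av7, av8, av9, av10⟩ := hAv k L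
  have hfr : ∀ u v w, FRat L (ext (D u v) + ext (D v w) - ext (D u w)) := by
    intro u v w f
    obtain ⟨f', hf'⟩ := hD u v w f
    refine ⟨f', ?_⟩
    rw [IsScalarTower.algebraMap_apply (F k) K L f]
    change (ext (D u v)) (algebraMap K L _) + (ext (D v w)) (algebraMap K L _) -
      (ext (D u w)) (algebraMap K L _) = _
    rw [hext, hext, hext, ← map_add, ← map_sub, IsScalarTower.algebraMap_apply (F k) K L f', ← hf']
    rfl
  have hcoc : IsCocycle (fun u v => ext (D u v) - avgD ⊤ (ext (D u v))) := by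
    intro u v w
    have e1 : avgD ⊤ (ext (D u v) + ext (D v w) - ext (D u w)) =
        ext (D u v) + ext (D v w) - ext (D u w) :=
      av7 ⊤ _ fun g _ => etF_inv hED L _ (hfr u v w) g
    rw [av5, av4] at e1
    change ext (D u v) - avgD ⊤ (ext (D u v)) + (ext (D v w) - avgD ⊤ (ext (D v w))) =
      ext (D u w) - avgD ⊤ (ext (D u w))
    have e2 : avgD ⊤ (ext (D u v)) + avgD ⊤ (ext (D v w)) =
        ext (D u v) + ext (D v w) - ext (D u w) + avgD ⊤ (ext (D u w)) := by
      rw [← e1]; abel
    calc ext (D u v) - avgD ⊤ (ext (D u v)) + (ext (D v w) - avgD ⊤ (ext (D v w)))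
        = ext (D u v) + ext (D v w) - (avgD ⊤ (ext (D u v)) + avgD ⊤ (ext (D v w))) := by abel
      _ = ext (D u w) - avgD ⊤ (ext (D u w)) := by rw [e2]; abel
  have hRL : Roots L C n := by
    intro i j
    obtain ⟨z, hz⟩ := hK.roots i j
    exact ⟨algebraMap K L z, by rw [← map_pow, hz, ← IsScalarTower.algebraMap_apply]⟩
  have hPres0 : ∀ u v, ∀ y ∈ ic L (u.R ⊔ v.R), y ∈ Kummer L C n → ext (D u v) y ∈ ic L (u.R ⊔ v.R) := by
    intro u v y hy hyK
    obtain ⟨x, rfl⟩ := etF_range C n hn K L hK.roots y hyK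
    rw [hext, h3, hOv]
    rw [h3, hOv] at hy
    exact hA u v x hy
  obtain ⟨-, -, hRM3⟩ := hRM k r n C L
  have hPresL : Pres n (fun u v => ext (D u v) - avgD ⊤ (ext (D u v))) := by
    intro u v
    obtain ⟨W, hW1, hW2⟩ := hRM3 (u.R ⊔ v.R)
    have m1 : ext (D u v) ∈ W := (hW1 _).2 (hPres0 u v)
    have m2 : avgD ⊤ (ext (D u v)) ∈ W := av8 ⊤ W (fun g _ D hD => hW2 g D hD) _ m1
    exact (hW1 _).1 (W.sub_mem m1 m2)
  have hav0 : ∀ u v, avgD ⊤ ((fun u v => ext (D u v) - avgD ⊤ (ext (D u v))) u v) = 0 := by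
    intro u v
    change avgD ⊤ (ext (D u v) - avgD ⊤ (ext (D u v))) = 0
    rw [av5, av7 ⊤ (avgD ⊤ (ext (D u v))) (fun g hg => av6 ⊤ _ g hg), sub_self]
  obtain ⟨E', hE', hEb⟩ := hMT L hRL _ hcoc hPresL hav0
  have : CharZero K := charZero_of_injective_algebraMap (algebraMap k K).injective
  refine ⟨fun u => T (E' u), ?_, ?_⟩
  · intro u x hx
    refine hES K _ _ _ (hK.etale u) ((T (E' u)).restrictScalars ℤ) ?_ (et_int C n K u) x hx
    rintro y ⟨hy1, hy2⟩
    change T (E' u) y ∈ u.A K
    refine T3 u.R (E' u) y ?_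
    refine hE' u _ ?_ (et_kummer C n K L y hy2)
    exact (h3 u.R y).2 hy1
  · intro u v
    -- the average is `F`-rational
    set Δ : Derivation k L L := avgD ⊤ (ext (D u v)) with hΔ
    have hΔF : ∀ f : F k, ∃ f' : F k, Δ (algebraMap (F k) L f) = algebraMap (F k) L f' := by
      intro f
      have hfix : ∀ g : L ≃ₐ[F k] L, g (Δ (algebraMap (F k) L f)) = Δ (algebraMap (F k) L f) := by
        intro g
        have h := av6 ⊤ (ext (D u v)) g (Subgroup.mem_top g)
        rw [← hΔ] at h
        have h' := congrArg (fun E : Derivation k L L => E (algebraMap (F k) L f)) h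
        change g (Δ (g.symm (algebraMap (F k) L f))) = _ at h'
        rwa [AlgEquiv.commutes] at h'
      have hm : Δ (algebraMap (F k) L f) ∈ (⊥ : IntermediateField (F k) L) := by
        rw [IsGalois.mem_bot_iff_fixed]
        exact hfix
      obtain ⟨f', hf'⟩ := IntermediateField.mem_bot.1 hm
      exact ⟨f', hf'.symm⟩
    choose δ hδ using hΔF
    have hinjL := (algebraMap (F k) L).injective
    let δD : Derivation k (F k) (F k) := Derivation.mk'
      { toFun := δ
        map_add' := by
          intro a b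
          apply hinjL
          rw [← hδ, map_add, map_add, hδ, hδ, map_add]
        map_smul' := by
          intro a b
          apply hinjL
          have e5 : algebraMap (F k) L (a • b) = a • algebraMap (F k) L b := by
            rw [Algebra.smul_def, map_mul, ← IsScalarTower.algebraMap_apply, ← Algebra.smul_def]
          have e6 : algebraMap (F k) L (a • δ b) = a • algebraMap (F k) L (δ b) := by
            rw [Algebra.smul_def, map_mul, ← IsScalarTower.algebraMap_apply, ← Algebra.smul_def]
          rw [← hδ, e5, Δ.map_smul, hδ, RingHom.id_apply, e6] }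
      (by
        intro a b
        apply hinjL
        change algebraMap (F k) L (δ (a * b)) = algebraMap (F k) L (a • δ b + b • δ a)
        rw [← hδ, map_mul, Δ.leibniz, hδ, hδ, map_add]
        simp only [smul_eq_mul, map_mul])
    obtain ⟨δK, hδK⟩ := hF1 δD
    have hext2 : ∀ x : K, Δ (algebraMap K L x) = algebraMap K L (δK x) := by
      have e : ext δK = Δ := by
        refine hF2 _ _ fun f => ?_
        have : ext δK (algebraMap (F k) L f) = algebraMap K L (δK (algebraMap (F k) K f)) := by
          rw [← hext]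
          rw [← IsScalarTower.algebraMap_apply (F k) K L]
        rw [this, hδK, ← IsScalarTower.algebraMap_apply (F k) K L]
        exact (hδ f).symm
      intro x
      rw [← e, hext]
    have hTΔ : T Δ = δK := T2 δK Δ hext2
    have hTD : T (ext (D u v)) = D u v := T2 (D u v) (ext (D u v)) (hext (D u v))
    have e3 : T (E' v) - T (E' u) = D u v - δK := by
      rw [← T1, ← hEb u v]
      change T (ext (D u v) - Δ) = _
      rw [T1, hTΔ, hTD]
    intro f
    refine ⟨δ f, ?_⟩
    have e4 : D u v - (T (E' v) - T (E' u)) = δK := by rw [e3]; abel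
    rw [e4]
    exact hδK f

theorem tEtF : ExtDerStmt → OverlapStmt → EtStepStmt → AvgStmt → RegModStmt → EtFStmt := by
  intro hED hOv hES hAv hRM k _ _ _ r n C hn hMT K _ _ _ _ hK D hA hD
  have := hK.finite
  have : CharZero (F k) := charZero_of_injective_algebraMap (algebraMap k (F k)).injective
  have : Algebra.IsAlgebraic (F k) (AlgebraicClosure K) := Algebra.IsAlgebraic.trans (F k) K (AlgebraicClosure K)
  have : IsAlgClosure (F k) (AlgebraicClosure K) := ⟨inferInstance, inferInstance⟩
  have : Normal (F k) (AlgebraicClosure K) := IsAlgClosure.normal (F k) (AlgebraicClosure K)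
  exact etF_core hED hOv hES hAv hRM k r n C hMT K
    (IntermediateField.normalClosure (F k) K (AlgebraicClosure K)) hn hK D hA hD

end Pool.Agent.Lib.MP_4318ff_ag
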